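import Pool.Agent.H18.TE.Targets
import Pool.Agent.H38.TD.RL1

/-!
# BDV: a hypersurface meets a curve in finitely many points (helper54)
-/

set_option autoImplicit false

open MvPolynomial
open Pool.Agent.H12.ZD (pmap v O Res DenseOrbit NoInv)
open Pool.Agent.H18.HIT
open Pool.Agent.H8.ZA (HFam Const NA sz)
open Pool.Agent.H8.TD
open Pool.Agent.H18.TE
open Pool.Agent.H38.TD (rl1_setup rl1_hom_iff xi Kx xi_mem rl1_tr rl1_hom_val rl1_aeval_mem
  rl1_trdeg HH HH_map HH_eq)

namespace Pool.Agent.H54.BKH

/-- divide a relation by the powers of the inner variable -/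
theorem strip {k L : Type} [Field k] [Field L] [Algebra k L] (r t : L) (hr : r ≠ 0) :
    ∀ (d : ℕ) (G : Polynomial (Polynomial k)), G.leadingCoeff.natDegree = d → G ≠ 0 →
      G.eval₂ (Polynomial.aeval r : Polynomial k →ₐ[k] L).toRingHom t = 0 →
      ∃ G' : Polynomial (Polynomial k), G'.map (Polynomial.evalRingHom 0) ≠ 0 ∧
        G'.eval₂ (Polynomial.aeval r : Polynomial k →ₐ[k] L).toRingHom t = 0 := by
  intro d
  induction d using Nat.strong_induction_on with
  | _ d ih =>
    intro G hd hG hrel
    by_cases h : G.map (Polynomial.evalRingHom 0) = 0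
    · have h1 : Polynomial.C Polynomial.X ∣ G := by
        rw [Polynomial.C_dvd_iff_dvd_coeff]
        intro s
        rw [Polynomial.X_dvd_iff, Polynomial.coeff_zero_eq_eval_zero]
        have h2 := congrArg (fun q => Polynomial.coeff q s) h
        simp only [Polynomial.coeff_map, Polynomial.coeff_zero] at h2
        exact h2
      obtain ⟨G3, h3⟩ := h1
      have hG3 : G3 ≠ 0 := by
        rintro rfl
        exact hG (by rw [h3, mul_zero])
      have hl : G.leadingCoeff = Polynomial.X * G3.leadingCoeff := by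
        rw [h3, Polynomial.leadingCoeff_mul, Polynomial.leadingCoeff_C]
      have hlt : G3.leadingCoeff.natDegree < d := by
        rw [← hd, hl, Polynomial.natDegree_mul Polynomial.X_ne_zero
          (Polynomial.leadingCoeff_ne_zero.2 hG3), Polynomial.natDegree_X]
        omega
      refine ih _ hlt G3 rfl hG3 ?_
      rw [h3, Polynomial.eval₂_mul, Polynomial.eval₂_C] at hrel
      have h4 : (Polynomial.aeval r : Polynomial k →ₐ[k] L).toRingHom Polynomial.X = r :=
        Polynomial.aeval_X r
      rw [h4] at hrel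
      exact (mul_eq_zero.1 hrel).resolve_left hr
    · exact ⟨G, h, hrel⟩

/-- an algebraic relation between two functions on a curve -/
theorem relat {k K : Type} [Field k] [Field K] [Algebra k K] (htr : Algebra.trdeg k K ≤ 1)
    (r t : K) (hr : Transcendental k r) :
    ∃ G : Polynomial (Polynomial k), G ≠ 0 ∧
      G.eval₂ (Polynomial.aeval r : Polynomial k →ₐ[k] K).toRingHom t = 0 := by
  have h1 : AlgebraicIndependent k (fun _ : Unit => r) :=
    (algebraicIndependent_unique_type_iff (ι := Unit)).2 hr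
  have h2 : IsTranscendenceBasis k (fun _ : Unit => r) :=
    h1.isTranscendenceBasis_of_trdeg_le_of_finite (by
      rw [Cardinal.mk_fintype]
      simpa using htr)
  have h3 := h2.isAlgebraic
  obtain ⟨p, hp0, hp⟩ := h3.isAlgebraic t
  have h5 : Set.range (fun _ : Unit => r) = {r} := by
    ext z
    simp [eq_comm]
  have hmem : ∀ q : Polynomial k,
      Polynomial.aeval r q ∈ Algebra.adjoin k (Set.range (fun _ : Unit => r)) := by
    intro q
    rw [h5]
    exact Polynomial.aeval_mem_adjoin_singleton _ _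
  let φ : Polynomial k →+* Algebra.adjoin k (Set.range (fun _ : Unit => r)) :=
    ((Polynomial.aeval r : Polynomial k →ₐ[k] K).codRestrict _ hmem).toRingHom
  have hφ : Function.Surjective φ := by
    intro z
    have hz : (z : K) ∈ Algebra.adjoin k {r} := by
      rw [← h5]
      exact z.2
    rw [Algebra.adjoin_singleton_eq_range_aeval] at hz
    obtain ⟨q, hq⟩ := hz
    exact ⟨q, Subtype.ext hq⟩
  obtain ⟨G, hG⟩ := Polynomial.map_surjective φ hφ p
  refine ⟨G, ?_, ?_⟩
  · rintro rfl
    exact hp0 (by rw [← hG, Polynomial.map_zero])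
  · rw [← hG, Polynomial.aeval_def, Polynomial.eval₂_map] at hp
    exact hp

theorem pf_BDV (hCTD : T_CTD) : T_BDV := by
  classical
  intro I p S S' D hI hom hX0 hpD hp hS hS' hS0 hS0' hrel
  obtain ⟨L, _, _, π, hker, hfr, hext⟩ := rl1_setup I hI
  have hx0 : π (X 0) ≠ 0 := fun h0 => hX0 ((hker _).1 h0)
  have htr : Transcendental (Kx π) (π (X 0)) := by
    apply rl1_tr π hx0
    intro c hc
    exact hext (fun i => C c * X i) (rl1_hom_iff I hom c hc)
  have htd := rl1_trdeg hCTD π hfr htr S S' ((hker _).2 hS) ((hker _).2 hS') hS0 hS0' hrel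
  have hpv := rl1_hom_val π hx0 p D hpD
  obtain ⟨r, hr⟩ : ∃ r : L, r = aeval (xi π) p := ⟨_, rfl⟩
  rw [← hr] at hpv
  have hr0 : r ≠ 0 := by
    rintro rfl
    rw [mul_zero] at hpv
    exact hp ((hker _).1 hpv)
  have hmain : ∀ i : Fin 4, ∃ f : Polynomial Qb, f ≠ 0 ∧ ∀ y : Fin 4 → Qb,
      (∀ q ∈ I, eval y q = 0) → y 0 ≠ 0 → eval y p = 0 → f.eval (y i / y 0) = 0 := by
    intro i
    by_cases halg : IsAlgebraic Qb r
    · refine ⟨1, one_ne_zero, fun y hy hy0 hyp => ?_⟩
      exfalso
      obtain ⟨c, hc⟩ : ∃ c : Qb, algebraMap Qb L c = r := by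
        have h1 := IsAlgClosed.degree_eq_one_of_irreducible Qb
          (minpoly.irreducible halg.isIntegral)
        obtain ⟨c, hc⟩ := minpoly.mem_range_of_degree_eq_one Qb r h1
        exact ⟨c, hc⟩
      have h1 : p - C c * X 0 ^ D ∈ I := by
        rw [← hker, map_sub, hpv, map_mul, map_pow, ← hc]
        have h2 : π (C c) = algebraMap Qb L c := AlgHom.commutes π c
        rw [h2]
        ring
      have h3 := hy _ h1
      rw [map_sub, hyp, map_mul, map_pow, eval_C, eval_X, zero_sub, neg_eq_zero] at h3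
      rcases mul_eq_zero.1 h3 with h4 | h4
      · apply hr0
        rw [← hc, h4, map_zero]
      · exact pow_ne_zero D hy0 h4
    · have hrm : r ∈ Kx π := by
        rw [hr]
        exact rl1_aeval_mem π p
      have htr' : Transcendental Qb (⟨r, hrm⟩ : Kx π) := by
        intro h
        apply halg
        exact h.algebraMap (A := L)
      obtain ⟨G, hG0, hG⟩ := relat htd (⟨r, hrm⟩ : Kx π) ⟨xi π i, xi_mem π i⟩ htr'
      have hGL : G.eval₂ (Polynomial.aeval r : Polynomial Qb →ₐ[Qb] L).toRingHom (xi π i) = 0 := by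
        have h1 := congrArg (algebraMap (Kx π) L) hG
        rw [map_zero, Polynomial.hom_eval₂] at h1
        have h2 : (algebraMap (Kx π) L).comp
            (Polynomial.aeval (⟨r, hrm⟩ : Kx π) : Polynomial Qb →ₐ[Qb] Kx π).toRingHom =
            (Polynomial.aeval r : Polynomial Qb →ₐ[Qb] L).toRingHom := by
          refine RingHom.ext fun q => ?_
          exact (Polynomial.aeval_algebraMap_apply L (⟨r, hrm⟩ : Kx π) q).symm
        rw [h2] at h1
        exact h1
      obtain ⟨G', hG'0, hG'⟩ := strip r (xi π i) hr0 _ G rfl hG0 hGL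
      refine ⟨G'.map (Polynomial.evalRingHom 0), hG'0, fun y hy hy0 hyp => ?_⟩
      obtain ⟨N, hN⟩ : ∃ N, ∀ m, (G'.coeff m).natDegree ≤ N := by
        refine ⟨∑ m ∈ Finset.range (G'.natDegree + 1), (G'.coeff m).natDegree, fun m => ?_⟩
        by_cases hm : m ≤ G'.natDegree
        · exact Finset.single_le_sum (f := fun m => (G'.coeff m).natDegree)
            (fun _ _ => Nat.zero_le _) (Finset.mem_range.2 (by omega))
        · rw [Polynomial.coeff_eq_zero_of_natDegree_lt (by omega), Polynomial.natDegree_zero]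
          exact Nat.zero_le _
      have hmem : HH G' N G'.natDegree p (X 0 ^ D : Po 4 Qb) (X i) (X 0) ∈ I := by
        rw [← hker, HH_map]
        have h1 : π p = r * π (X 0 ^ D) := by
          rw [hpv, map_pow]
          ring
        have h2 : π (X i) = xi π i * π (X 0) := by
          unfold xi
          rw [div_mul_cancel₀ _ hx0]
        rw [h1, h2, HH_eq G' _ _ hN le_rfl, hG', mul_zero]
      have h1 := hy _ hmem
      have h2 : eval y (HH G' N G'.natDegree p (X 0 ^ D : Po 4 Qb) (X i) (X 0)) =
          HH G' N G'.natDegree (0 * y 0 ^ D) (y 0 ^ D) (y i / y 0 * y 0) (y 0) := by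
        have h3 := HH_map G' N G'.natDegree (aeval y : Po 4 Qb →ₐ[Qb] Qb) p (X 0 ^ D) (X i) (X 0)
        rw [aeval_X, aeval_X, map_pow, aeval_X] at h3
        have h4 : (aeval y : Po 4 Qb →ₐ[Qb] Qb) p = 0 * y 0 ^ D := by
          rw [zero_mul]
          exact hyp
        rw [h4] at h3
        rw [div_mul_cancel₀ _ hy0]
        exact h3
      rw [h2, HH_eq G' _ _ hN le_rfl] at h1
      have h7 := (mul_eq_zero.1 h1).resolve_left
        (mul_ne_zero (pow_ne_zero _ (pow_ne_zero _ hy0)) (pow_ne_zero _ hy0))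
      rw [Polynomial.eval_map]
      exact h7
  choose f hf0 hf using hmain
  refine Set.Finite.subset (Set.Finite.pi' (t := fun i : Fin 3 => {z | (f i.succ).IsRoot z})
    fun i => Polynomial.finite_setOfPred_isRoot (hf0 i.succ)) ?_
  rintro w ⟨y, hy, hy0, hyp, rfl⟩ i
  exact hf i.succ y hy hy0 hyp

end Pool.Agent.H54.BKH
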