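import Pool.Agent.H18.TE.Targets

/-!
# SLR: degree of a graded extension, upper bound (helper54)
-/

set_option autoImplicit false

open MvPolynomial
open Pool.Agent.H12.ZD (pmap v O Res DenseOrbit NoInv)
open Pool.Agent.H18.HIT
open Pool.Agent.H8.ZA (HFam Const NA sz)
open Pool.Agent.H8.TD
open Pool.Agent.H18.TE

namespace Pool.Agent.H54.BKH

theorem pf_SLR : T_SLR := by
  classical
  intro k K L _ _ _ _ _ _ _ τ₀ τ s w D hD htop hw hτ hs hfin
  let b := Module.finBasis τ₀.fieldRange K
  obtain ⟨n, hn⟩ : ∃ n, n = Module.finrank τ₀.fieldRange K := ⟨_, rfl⟩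
  let f : Fin (Module.finrank τ₀.fieldRange K) × Fin D → L :=
    fun i => algebraMap K L (b i.1) * s ^ (i.2 : ℕ)
  obtain ⟨E, hE⟩ : ∃ E : Submodule τ.fieldRange L, E = Submodule.span τ.fieldRange (Set.range f) :=
    ⟨_, rfl⟩
  have hmemF : ∀ y : K, algebraMap K L (τ₀ y) ∈ τ.fieldRange := fun y =>
    ⟨algebraMap K L y, hτ y⟩
  have hsm : ∀ (c : L), c ∈ τ.fieldRange → ∀ e ∈ E, c * e ∈ E := by
    intro c hc e he
    exact E.smul_mem (⟨c, hc⟩ : τ.fieldRange) he
  have h1 : ∀ (x : K) (j : ℕ), j < D → algebraMap K L x * s ^ j ∈ E := by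
    intro x j hj
    have h2 : x = ∑ i, b.repr x i • b i := (b.sum_repr x).symm
    rw [h2, map_sum, Finset.sum_mul]
    refine Submodule.sum_mem _ fun i _ => ?_
    have h3 : algebraMap K L (b.repr x i • b i) * s ^ j =
        algebraMap K L ((b.repr x i : τ₀.fieldRange) : K) * (algebraMap K L (b i) * s ^ j) := by
      have h4 : b.repr x i • b i = ((b.repr x i : τ₀.fieldRange) : K) * b i := rfl
      rw [h4, map_mul]
      ring
    rw [h3]
    obtain ⟨y, hy⟩ := (b.repr x i).2
    refine hsm _ ?_ _ ?_
    · rw [← hy]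
      exact hmemF y
    · rw [hE]
      exact Submodule.subset_span ⟨(i, ⟨j, hj⟩), rfl⟩
  have hK : ∀ x : K, ∀ e ∈ E, algebraMap K L x * e ∈ E := by
    intro x e he
    rw [hE] at he
    refine Submodule.span_induction (p := fun e _ => algebraMap K L x * e ∈ E) ?_ ?_ ?_ ?_ he
    · rintro _ ⟨i, rfl⟩
      have h2 : algebraMap K L x * f i = algebraMap K L (x * b i.1) * s ^ (i.2 : ℕ) := by
        change algebraMap K L x * (algebraMap K L (b i.1) * s ^ (i.2 : ℕ)) = _
        rw [map_mul]
        ring
      rw [h2]
      exact h1 _ _ i.2.2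
    · rw [mul_zero]
      exact E.zero_mem
    · intro u v _ _ hu hv
      rw [mul_add]
      exact E.add_mem hu hv
    · intro c u _ hu
      have h2 : algebraMap K L x * (c • u) = (c : L) * (algebraMap K L x * u) := by
        change algebraMap K L x * ((c : L) * u) = _
        ring
      rw [h2]
      exact hsm _ c.2 _ hu
  have hS : ∀ e ∈ E, s * e ∈ E := by
    intro e he
    rw [hE] at he
    refine Submodule.span_induction (p := fun e _ => s * e ∈ E) ?_ ?_ ?_ ?_ he
    · rintro _ ⟨i, rfl⟩
      by_cases hi : (i.2 : ℕ) + 1 < D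
      · have h2 : s * f i = algebraMap K L (b i.1) * s ^ ((i.2 : ℕ) + 1) := by
          change s * (algebraMap K L (b i.1) * s ^ (i.2 : ℕ)) = _
          ring
        rw [h2]
        exact h1 _ _ hi
      · have hi' : (i.2 : ℕ) + 1 = D := by
          have := i.2.2
          omega
        have h2 : s * f i = τ s * (algebraMap K L (w⁻¹ * b i.1) * s ^ 0) := by
          change s * (algebraMap K L (b i.1) * s ^ (i.2 : ℕ)) = _
          have h5 : s ^ D = s ^ (i.2 : ℕ) * s := by
            rw [← pow_succ]
            exact congrArg (fun e => s ^ e) hi'.symm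
          rw [hs, map_mul, map_inv₀, h5]
          have h3 : algebraMap K L w ≠ 0 := (map_ne_zero_iff _ (algebraMap K L).injective).2 hw
          field_simp
        rw [h2]
        exact hsm _ ⟨s, rfl⟩ _ (h1 _ _ (by omega))
    · rw [mul_zero]
      exact E.zero_mem
    · intro u v _ _ hu hv
      rw [mul_add]
      exact E.add_mem hu hv
    · intro c u _ hu
      have h2 : s * (c • u) = (c : L) * (s * u) := by
        change s * ((c : L) * u) = _
        ring
      rw [h2]
      exact hsm _ c.2 _ hu
  have hone : (1 : L) ∈ E := by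
    have := h1 1 0 (by omega)
    rwa [map_one, pow_zero, mul_one] at this
  -- the stabilizer
  let T : Subalgebra τ.fieldRange L :=
    { carrier := {z | ∀ e ∈ E, z * e ∈ E}
      mul_mem' := fun {x y} hx hy e he => by
        rw [mul_assoc]
        exact hx _ (hy _ he)
      one_mem' := fun e he => by
        rw [one_mul]
        exact he
      add_mem' := fun {x y} hx hy e he => by
        rw [add_mul]
        exact E.add_mem (hx _ he) (hy _ he)
      zero_mem' := fun e _ => by
        rw [zero_mul]
        exact E.zero_mem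
      algebraMap_mem' := fun c e he => hsm _ c.2 _ he }
  have hEfg : E.FG := by
    rw [hE]
    exact Submodule.fg_span (Set.finite_range f)
  have hint : ∀ z ∈ T, IsIntegral τ.fieldRange z := by
    intro z hz
    refine isIntegral_of_smul_mem_submodule E ?_ hEfg z fun e he => hz e he
    intro h
    rw [h] at hone
    exact one_ne_zero hone
  have hinv : ∀ z ∈ T, z⁻¹ ∈ T := by
    intro z hz
    exact T.inv_mem_of_algebraic (x := ⟨z, hz⟩) (hint z hz).isAlgebraic
  let M : IntermediateField K L :=
    { carrier := (T : Set L)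
      mul_mem' := fun hx hy => T.mul_mem hx hy
      one_mem' := T.one_mem
      add_mem' := fun hx hy => T.add_mem hx hy
      zero_mem' := T.zero_mem
      algebraMap_mem' := fun x => hK x
      inv_mem' := fun x hx => hinv x hx }
  have hM : (⊤ : IntermediateField K L) ≤ M := by
    rw [← htop, IntermediateField.adjoin_le_iff]
    rintro _ rfl
    exact hS
  have hEtop : E = ⊤ := by
    rw [Submodule.eq_top_iff']
    intro z
    have hz : z ∈ M := hM trivial
    have := (show ∀ e ∈ E, z * e ∈ E from hz) 1 hone
    rwa [mul_one] at this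
  have hfr := finrank_range_le_card (R := τ.fieldRange) f
  rw [Set.finrank, ← hE, hEtop, finrank_top, Fintype.card_prod, Fintype.card_fin,
    Fintype.card_fin, mul_comm] at hfr
  exact hfr

end Pool.Agent.H54.BKH
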